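import Pool.Agent.H83.FS.Stm

set_option autoImplicit false

namespace Pool.Agent.H809.FS83

open SimpleGraph Pool.Agent.H83.FS

section

variable {V : Type} (Y : SimpleGraph V) (u v w : V) (K : Finset V)

/-- the invariant of the construction -/
structure Q (m : ℕ) (p : ℕ → V) : Prop where
  p0 : p 0 = v
  p1 : p 1 = u
  p2 : p 2 = w
  inj : ∀ i i', i ≤ m → i' ≤ m → p i = p i' → i = i'
  adj : ∀ i, i < m → Y.Adj (p i) (p (i + 1))
  mem : ∀ i, 2 ≤ i → i ≤ m → p i ∈ K
  deg : ∀ i, 1 ≤ i → i + 1 < m → ∀ y, Y.Adj (p (i + 1)) y → y = p i ∨ y = p (i + 2)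

variable {Y u v w K}

theorem Q.two_le {m : ℕ} {p : ℕ → V} (h : Q Y u v w K m p) (hu : u ∉ K) (hv : v ∉ K) {i : ℕ}
    (hi : p i ∈ K) : 2 ≤ i := by
  by_contra hlt
  have : i = 0 ∨ i = 1 := by omega
  rcases this with rfl | rfl
  · rw [h.p0] at hi; exact hv hi
  · rw [h.p1] at hi; exact hu hi

theorem Q.off [DecidableEq V] {m k : ℕ} {p : ℕ → V} (h : Q Y u v w K m p) (hu : u ∉ K) (hv : v ∉ K)
    (hm : 2 ≤ m) (hmk : m ≤ k) (hk : k ≤ K.card)
    (hcon : ∀ x ∈ K, Cn Y (fun z => z ∈ K) w x) :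
    ∃ y, y ∈ K ∧ Y.Adj (p m) y ∧ ∀ i, i ≤ m → y ≠ p i := by
  by_contra hno
  push Not at hno
  have hsub : K ⊆ (Finset.Icc 2 m).image p := by
    intro x hx
    have hc := hcon x hx
    unfold Cn at hc
    clear hx
    induction hc with
    | refl =>
      exact Finset.mem_image.mpr ⟨2, Finset.mem_Icc.mpr ⟨le_refl _, hm⟩, h.p2⟩
    | @tail a y _ h2 ih =>
      obtain ⟨hadj, haK, hyK⟩ := h2
      obtain ⟨l, hl, rfl⟩ := Finset.mem_image.mp ih
      rw [Finset.mem_Icc] at hl
      rcases Nat.lt_or_ge l m with hlm | hlm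
      · obtain ⟨l', rfl⟩ : ∃ l', l = l' + 1 := ⟨l - 1, by omega⟩
        rcases h.deg l' (by omega) hlm y hadj with hy | hy
        · subst hy
          have := h.two_le hu hv hyK
          exact Finset.mem_image.mpr ⟨l', Finset.mem_Icc.mpr ⟨this, by omega⟩, rfl⟩
        · subst hy
          exact Finset.mem_image.mpr ⟨l' + 2, Finset.mem_Icc.mpr ⟨by omega, by omega⟩, rfl⟩
      · have hlm' : l = m := by omega
        subst hlm'
        obtain ⟨i, hi, hyi⟩ := hno y hyK hadj
        subst hyi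
        have := h.two_le hu hv hyK
        exact Finset.mem_image.mpr ⟨i, Finset.mem_Icc.mpr ⟨this, hi⟩, rfl⟩
  have h1 := Finset.card_le_card hsub
  have h2 : ((Finset.Icc 2 m).image p).card ≤ (Finset.Icc 2 m).card := Finset.card_image_le
  rw [Nat.card_Icc] at h2
  omega

theorem Q.step [DecidableEq V] {m k : ℕ} {p : ℕ → V} (h : Q Y u v w K m p) (hu : u ∉ K) (hv : v ∉ K)
    (hm : 2 ≤ m) (hmk : m + 1 ≤ k) (hk : k ≤ K.card)
    (hcl : ∀ x ∈ K, ∀ y, Y.Adj x y → y ∈ K ∨ (x = w ∧ y = u))
    (hcon : ∀ x ∈ K, Cn Y (fun z => z ∈ K) w x)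
    (hA : ∀ (p : ℕ → V) (j : ℕ), 1 ≤ j → j + 2 ≤ k → p 0 = v → p 1 = u → p 2 = w →
      (∀ i i', i ≤ j + 1 → i' ≤ j + 1 → p i = p i' → i = i') →
      (∀ i, i ≤ j → Y.Adj (p i) (p (i + 1))) → (∀ i, 2 ≤ i → i ≤ j + 1 → p i ∈ K) →
      ∀ y y', y ∈ K → y' ∈ K → y ≠ y' → (∀ i, i ≤ j + 1 → y ≠ p i) →
        (∀ i, i ≤ j + 1 → y' ≠ p i) → Y.Adj (p (j + 1)) y → Y.Adj (p (j + 1)) y' → False) :
    ∃ p', Q Y u v w K (m + 1) p' := by
  obtain ⟨y, hyK, hy, hyoff⟩ := h.off hu hv hm (by omega) hk hcon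
  obtain ⟨j, rfl⟩ : ∃ j, m = j + 1 := ⟨m - 1, by omega⟩
  have huniq : ∀ y', y' ∈ K → Y.Adj (p (j + 1)) y' → (∀ i, i ≤ j + 1 → y' ≠ p i) → y' = y := by
    intro y' hy'K hy' hoff
    by_contra hne
    exact hA p j (by omega) (by omega) h.p0 h.p1 h.p2 h.inj (fun i hi => h.adj i (by omega)) h.mem
      y' y hy'K hyK hne hoff hyoff hy' hy
  have hq : ∀ i, i ≤ j + 1 → Function.update p (j + 2) y i = p i := by
    intro i hi
    rw [Function.update_of_ne (by omega)]
  have hq' : Function.update p (j + 2) y (j + 2) = y := Function.update_self _ _ _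
  refine ⟨Function.update p (j + 2) y, ?_, ?_, ?_, ?_, ?_, ?_, ?_⟩
  · rw [hq 0 (by omega), h.p0]
  · rw [hq 1 (by omega), h.p1]
  · rw [hq 2 (by omega), h.p2]
  · intro i i' hi hi' hii
    rcases Nat.lt_or_ge i (j + 2) with h1 | h1 <;> rcases Nat.lt_or_ge i' (j + 2) with h2 | h2
    · rw [hq i (by omega), hq i' (by omega)] at hii
      exact h.inj i i' (by omega) (by omega) hii
    · have : i' = j + 2 := by omega
      subst this
      rw [hq i (by omega), hq'] at hii
      exact absurd hii.symm (hyoff i (by omega))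
    · have : i = j + 2 := by omega
      subst this
      rw [hq i' (by omega), hq'] at hii
      exact absurd hii (hyoff i' (by omega))
    · omega
  · intro i hi
    rcases Nat.lt_or_ge i (j + 1) with h1 | h1
    · rw [hq i (by omega), hq (i + 1) (by omega)]
      exact h.adj i h1
    · have : i = j + 1 := by omega
      subst this
      rw [hq (j + 1) (by omega), hq']
      exact hy
  · intro i hi hi'
    rcases Nat.lt_or_ge i (j + 2) with h1 | h1
    · rw [hq i (by omega)]
      exact h.mem i hi (by omega)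
    · have : i = j + 2 := by omega
      subst this
      rw [hq']
      exact hyK
  · intro i hi hi' z hz
    rw [hq (i + 1) (by omega)] at hz
    rw [hq i (by omega)]
    rcases Nat.lt_or_ge (i + 1) (j + 1) with h1 | h1
    · rw [hq (i + 2) (by omega)]
      exact h.deg i hi h1 z hz
    · have : i = j := by omega
      subst this
      rw [hq']
      by_cases hoff : ∀ l, l ≤ i + 1 → z ≠ p l
      · have hzK : z ∈ K := by
          rcases hcl _ (h.mem (i + 1) (by omega) (by omega)) z hz with h2 | ⟨_, h2⟩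
          · exact h2
          · exact absurd (h2.trans h.p1.symm) (hoff 1 (by omega))
        exact Or.inr (huniq z hzK hz hoff)
      · push Not at hoff
        obtain ⟨l, hl, rfl⟩ := hoff
        left
        rcases hcl _ (h.mem (i + 1) (by omega) (by omega)) _ hz with h2 | ⟨h2, h3⟩
        · have hl2 := h.two_le hu hv h2
          rcases Nat.lt_or_ge l (i + 1) with h3 | h3
          · obtain ⟨l', rfl⟩ : ∃ l', l = l' + 1 := ⟨l - 1, by omega⟩
            rcases h.deg l' (by omega) h3 _ hz.symm with h4 | h4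
            · have := h.inj _ _ (by omega) (by omega) h4
              omega
            · have := h.inj _ _ (by omega) (by omega) h4
              have : i = l' + 1 := by omega
              rw [this]
          · have : l = i + 1 := by omega
            subst this
            exact absurd hz (Y.loopless.irrefl _)
        · have h4 : i + 1 = 2 := h.inj _ _ (by omega) (by omega) (h2.trans h.p2.symm)
          have h5 : i = 1 := by omega
          subst h5
          rw [h3, h.p1]

/-- the first three vertices -/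
def bs (u v w : V) : ℕ → V
  | 0 => v
  | 1 => u
  | _ => w

theorem q2 (huv : Y.Adj u v) (huw : Y.Adj u w) (hwK : w ∈ K) (hv : v ∉ K) :
    ∃ p, Q Y u v w K 2 p := by
  have hvu : v ≠ u := huv.ne.symm
  have hvw : v ≠ w := fun e => hv (e ▸ hwK)
  have huw' : u ≠ w := huw.ne
  refine ⟨bs u v w, rfl, rfl, rfl, ?_, ?_, ?_, ?_⟩
  · intro i i' hi hi' hii
    match i, i', hi, hi' with
    | 0, 0, _, _ => rfl
    | 0, 1, _, _ => exact absurd hii hvu
    | 0, 2, _, _ => exact absurd hii hvw
    | 1, 0, _, _ => exact absurd hii.symm hvu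
    | 1, 1, _, _ => rfl
    | 1, 2, _, _ => exact absurd hii huw'
    | 2, 0, _, _ => exact absurd hii.symm hvw
    | 2, 1, _, _ => exact absurd hii.symm huw'
    | 2, 2, _, _ => rfl
  · intro i hi
    match i, hi with
    | 0, _ => exact huv.symm
    | 1, _ => exact huw
  · intro i hi hi'
    have : i = 2 := by omega
    subst this
    exact hwK
  · intro i hi hi'
    omega

/-- the set `K` without `p 2, ..., p i` is closed after the deletion of the edge -/
theorem Q.closed {k : ℕ} {p : ℕ → V} (h : Q Y u v w K k p) (hu : u ∉ K) (hv : v ∉ K)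
    (hcl : ∀ x ∈ K, ∀ y, Y.Adj x y → y ∈ K ∨ (x = w ∧ y = u)) {i : ℕ} (hi : 1 ≤ i)
    (hik : i < k) {x y : V} (hx : x ∈ K) (hxo : ∀ l, 2 ≤ l → l ≤ i → x ≠ p l)
    (hxy : Y.Adj x y) (hne : s(x, y) ≠ s(p i, p (i + 1))) :
    y ∈ K ∧ ∀ l, 2 ≤ l → l ≤ i → y ≠ p l := by
  have hyK : y ∈ K := by
    rcases hcl x hx y hxy with h1 | ⟨h1, h2⟩
    · exact h1
    · exfalso
      rcases Nat.lt_or_ge 1 i with h3 | h3
      · exact hxo 2 (le_refl _) h3 (h1.trans h.p2.symm)
      · have : i = 1 := by omega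
        subst this
        apply hne
        rw [h1, h2, h.p1, h.p2]
        exact Sym2.eq_swap
  refine ⟨hyK, ?_⟩
  rintro l hl hli rfl
  obtain ⟨l', rfl⟩ : ∃ l', l = l' + 1 := ⟨l - 1, by omega⟩
  rcases h.deg l' (by omega) (by omega) x hxy.symm with h1 | h1
  · have h2 := h.two_le hu hv (h1 ▸ hx)
    exact hxo l' h2 (by omega) h1
  · rcases Nat.lt_or_ge (l' + 1) i with h3 | h3
    · exact hxo (l' + 2) (by omega) (by omega) h1
    · have : i = l' + 1 := by omega
      subst this
      apply hne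
      rw [h1]
      exact Sym2.eq_swap

end

theorem graph : S_graph := by
  intro V _ _ Y u v w K k hk hkK hu hv huv huw hwK hcl hcon hA
  have hex : ∀ m, 2 ≤ m → m ≤ k → ∃ p, Q Y u v w K m p := by
    intro m hm
    induction m, hm using Nat.le_induction with
    | base =>
      intro _
      exact q2 huv huw hwK hv
    | succ m hm ih =>
      intro hmk
      obtain ⟨p, hp⟩ := ih (by omega)
      exact hp.step hu hv hm hmk hkK hcl hcon hA
  obtain ⟨p, hp⟩ := hex k hk (le_refl _)
  have hpu := hp.p1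
  have hpw := hp.p2
  refine ⟨fun i => p (i + 1), ?_, ?_, ?_, ?_, ?_⟩
  · intro i j hi hj hij
    have := hp.inj (i + 1) (j + 1) (by omega) (by omega) hij
    omega
  · intro i hi
    refine ⟨hp.adj (i + 1) (by omega), ?_⟩
    rw [isBridge_iff]
    rintro ⟨q⟩
    have key : ∀ (a b : V), (Y.deleteEdges {s(p (i + 1), p (i + 1 + 1))}).Walk a b →
        (b ∈ K ∧ ∀ l, 2 ≤ l → l ≤ i + 1 → b ≠ p l) → (a ∈ K ∧ ∀ l, 2 ≤ l → l ≤ i + 1 → a ≠ p l) := by
      intro a b q
      induction q with
      | nil => exact fun h => h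
      | @cons a b c hab _ ih =>
        intro hc
        obtain ⟨h1, h2⟩ := ih hc
        rw [deleteEdges_adj] at hab
        refine hp.closed hu hv hcl (by omega) (by omega) h1 h2 hab.1.symm ?_
        intro e
        apply hab.2
        rw [Set.mem_singleton_iff, ← e]
        exact Sym2.eq_swap
    have h1 := key _ _ q ⟨hp.mem _ (by omega) (by omega), fun l hl hl' e => by
      have := hp.inj _ _ (by omega) (by omega) e
      omega⟩
    rcases Nat.eq_zero_or_pos i with rfl | hpos
    · apply hu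
      rw [← hpu]
      exact h1.1
    · exact h1.2 (i + 1) (by omega) (le_refl _) rfl
  · intro i hi hi'
    obtain ⟨i, rfl⟩ : ∃ i', i = i' + 1 := ⟨i - 1, by omega⟩
    have : Y.neighborSet (p (i + 1 + 1)) = {p (i + 1), p (i + 3)} := by
      ext z
      simp only [mem_neighborSet, Set.mem_insert_iff, Set.mem_singleton_iff]
      constructor
      · intro hz
        exact hp.deg (i + 1) (by omega) (by omega) z hz
      · rintro (rfl | rfl)
        · exact (hp.adj (i + 1) (by omega)).symm
        · exact hp.adj (i + 2) (by omega)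
    show (Y.neighborSet (p (i + 1 + 1))).ncard = 2
    rw [this, Set.ncard_pair]
    intro e
    have := hp.inj _ _ (by omega) (by omega) e
    omega
  · show 2 ≤ (Y.neighborSet (p (0 + 1))).ncard
    rw [zero_add, hpu]
    have hvw : v ≠ w := fun e => hv (e ▸ hwK)
    rw [← Set.ncard_pair hvw]
    refine Set.ncard_le_ncard ?_ (Set.toFinite _)
    rintro z (rfl | hz)
    · exact huv
    · rw [Set.mem_singleton_iff] at hz
      rw [hz]
      exact huw
  · obtain ⟨y, _, hy, hyo⟩ := hp.off hu hv hk (le_refl _) hkK hcon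
    obtain ⟨j, rfl⟩ : ∃ j, k = j + 1 := ⟨k - 1, by omega⟩
    show 2 ≤ (Y.neighborSet (p (j + 1))).ncard
    rw [← Set.ncard_pair (hyo j (by omega))]
    refine Set.ncard_le_ncard ?_ (Set.toFinite _)
    rintro z (rfl | hz)
    · exact hy
    · rw [Set.mem_singleton_iff] at hz
      rw [hz]
      exact (hp.adj j (by omega)).symm

end Pool.Agent.H809.FS83
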